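import Pool.Agent.Q25.LF.Mat

/-!
# The blocks of dimensions three and four
-/

set_option autoImplicit false

namespace Pool.Agent.Q25.LF

open Quaternion Matrix

/-- A unit from an orthogonal matrix. -/
def mkU {n : ℕ} (A : Matrix (Fin n) (Fin n) ℝ) (h : A * Aᵀ = 1) : (Matrix (Fin n) (Fin n) ℝ)ˣ where
  val := A
  inv := Aᵀ
  val_inv := h
  inv_val := mul_eq_one_comm.1 h

/-- rotation, conjugation by `1 + 2i`. -/
noncomputable def A3 : Matrix (Fin 3) (Fin 3) ℝ := !![1, 0, 0; 0, -3/5, -4/5; 0, 4/5, -3/5]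
/-- rotation, conjugation by `(-3 + 4j)/5`. -/
noncomputable def B3 : Matrix (Fin 3) (Fin 3) ℝ := !![-7/25, 0, -24/25; 0, 1, 0; 24/25, 0, -7/25]

theorem A3_orth : A3 * A3ᵀ = 1 := by
  ext i j; fin_cases i <;> fin_cases j <;>
    simp [A3, Matrix.mul_apply, Fin.sum_univ_three] <;> norm_num
theorem B3_orth : B3 * B3ᵀ = 1 := by
  ext i j; fin_cases i <;> fin_cases j <;>
    simp [B3, Matrix.mul_apply, Fin.sum_univ_three] <;> norm_num

noncomputable def A4 : Matrix (Fin 4) (Fin 4) ℝ :=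
  !![-1, 0, 0, 0; 0, -1, 0, 0; 0, 0, 3/5, 4/5; 0, 0, -4/5, 3/5]
noncomputable def B4 : Matrix (Fin 4) (Fin 4) ℝ :=
  !![-3/5, 0, 4/5, 0; 0, -3/5, 0, 4/5; -4/5, 0, -3/5, 0; 0, -4/5, 0, -3/5]

theorem A4_orth : A4 * A4ᵀ = 1 := by
  ext i j; fin_cases i <;> fin_cases j <;>
    simp [A4, Matrix.mul_apply, Fin.sum_univ_four] <;> norm_num
theorem B4_orth : B4 * B4ᵀ = 1 := by
  ext i j; fin_cases i <;> fin_cases j <;>
    simp [B4, Matrix.mul_apply, Fin.sum_univ_four] <;> norm_num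

theorem A3_det : A3.det = 1 := by simp [A3, Matrix.det_fin_three]; norm_num
theorem B3_det : B3.det = 1 := by simp [B3, Matrix.det_fin_three]; norm_num
theorem A4_det : A4.det = 1 := by
  simp [A4, Matrix.det_succ_row_zero, Fin.sum_univ_succ]; norm_num
theorem B4_det : B4.det = 1 := by
  simp [B4, Matrix.det_succ_row_zero, Fin.sum_univ_succ, Fin.succAbove]; norm_num

noncomputable def V3 : F →* (Matrix (Fin 3) (Fin 3) ℝ)ˣ :=
  FreeGroup.lift fun i => if i then mkU B3 B3_orth else mkU A3 A3_orth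

noncomputable def V4 : F →* (Matrix (Fin 4) (Fin 4) ℝ)ˣ :=
  FreeGroup.lift fun i => if i then mkU B4 B4_orth else mkU A4 A4_orth

theorem V3_mem (w : F) : V3 w ∈ SOg (Fin 3) := by
  apply lift_mem
  intro i
  cases i
  · exact ⟨A3_orth, A3_det⟩
  · exact ⟨B3_orth, B3_det⟩

theorem V4_mem (w : F) : V4 w ∈ SOg (Fin 4) := by
  apply lift_mem
  intro i
  cases i
  · exact ⟨A4_orth, A4_det⟩
  · exact ⟨B4_orth, B4_det⟩

/-- Vectors as quaternions. -/
def q3 (x : Fin 3 → ℝ) : Quaternion ℝ := qq 0 (x 0) (x 1) (x 2)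
def q4 (x : Fin 4 → ℝ) : Quaternion ℝ := qq (x 0) (x 1) (x 2) (x 3)

theorem q3_inj {x y : Fin 3 → ℝ} (h : q3 x = q3 y) : x = y := by
  have h1 := congrArg (fun q : Quaternion ℝ => q.imI) h
  have h2 := congrArg (fun q : Quaternion ℝ => q.imJ) h
  have h3 := congrArg (fun q : Quaternion ℝ => q.imK) h
  simp only [q3, qq_i, qq_j, qq_k] at h1 h2 h3
  funext i; fin_cases i <;> simp [h1, h2, h3]

theorem q4_inj {x y : Fin 4 → ℝ} (h : q4 x = q4 y) : x = y := by
  have h0 := congrArg (fun q : Quaternion ℝ => q.re) h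
  have h1 := congrArg (fun q : Quaternion ℝ => q.imI) h
  have h2 := congrArg (fun q : Quaternion ℝ => q.imJ) h
  have h3 := congrArg (fun q : Quaternion ℝ => q.imK) h
  simp only [q4, qq_re, qq_i, qq_j, qq_k] at h0 h1 h2 h3
  funext i; fin_cases i <;> simp [h0, h1, h2, h3]

theorem q3_zero : q3 0 = 0 := by ext <;> simp [q3]
theorem q4_zero : q4 0 = 0 := by ext <;> simp [q4]

/-- The conjugation action. -/
noncomputable def cj (w : F) (x : Quaternion ℝ) : Quaternion ℝ :=
  ((Q w : (Quaternion ℝ)ˣ) : Quaternion ℝ) * x * (((Q w)⁻¹ : (Quaternion ℝ)ˣ) : Quaternion ℝ)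

theorem cj_mul (v w : F) (x : Quaternion ℝ) : cj (v * w) x = cj v (cj w x) := by
  simp only [cj, map_mul, Units.val_mul, _root_.mul_inv_rev, mul_assoc]

theorem cj_one (x : Quaternion ℝ) : cj 1 x = x := by simp [cj]

theorem V3_q3 (w : F) : ∀ x : Fin 3 → ℝ, q3 ((V3 w : Matrix (Fin 3) (Fin 3) ℝ) *ᵥ x) = cj w (q3 x) := by
  have hof : ∀ (i : Bool) (x : Fin 3 → ℝ),
      q3 ((V3 (FreeGroup.of i) : Matrix (Fin 3) (Fin 3) ℝ) *ᵥ x) = cj (FreeGroup.of i) (q3 x) := by
    intro i x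
    cases i
    · have h1 : ((V3 (FreeGroup.of false) : (Matrix (Fin 3) (Fin 3) ℝ)ˣ) : Matrix (Fin 3) (Fin 3) ℝ) = A3 := by
        simp [V3, mkU]
      have h2 : Q (FreeGroup.of false) = uP := by simp [Q]
      rw [h1]
      unfold cj
      rw [h2, uP_val, uP_inv]
      ext <;> simp [q3, A3, Matrix.mulVec, dotProduct, Fin.sum_univ_three] <;> ring
    · have h1 : ((V3 (FreeGroup.of true) : (Matrix (Fin 3) (Fin 3) ℝ)ˣ) : Matrix (Fin 3) (Fin 3) ℝ) = B3 := by
        simp [V3, mkU]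
      have h2 : Q (FreeGroup.of true) = uB := by simp [Q]
      rw [h1]
      unfold cj
      rw [h2, uB_val, uB_inv]
      ext <;> simp [q3, B3, Matrix.mulVec, dotProduct, Fin.sum_univ_three] <;> ring
  induction w using FreeGroup.induction_on with
  | C1 => intro x; simp [cj]
  | of i => exact hof i
  | inv_of i _ =>
    intro x
    have h1 := hof i ((V3 (FreeGroup.of i)⁻¹ : Matrix (Fin 3) (Fin 3) ℝ) *ᵥ x)
    rw [Matrix.mulVec_mulVec, ← Units.val_mul, ← map_mul, mul_inv_cancel, map_one, Units.val_one,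
      Matrix.one_mulVec] at h1
    rw [h1, ← cj_mul, inv_mul_cancel, cj_one]
  | mul v w hv hw =>
    intro x
    rw [map_mul, Units.val_mul, ← Matrix.mulVec_mulVec, hv, hw, cj_mul]

theorem V4_q4 (w : F) : ∀ x : Fin 4 → ℝ, q4 ((V4 w : Matrix (Fin 4) (Fin 4) ℝ) *ᵥ x) = act w (q4 x) := by
  have hof : ∀ (i : Bool) (x : Fin 4 → ℝ),
      q4 ((V4 (FreeGroup.of i) : Matrix (Fin 4) (Fin 4) ℝ) *ᵥ x) = act (FreeGroup.of i) (q4 x) := by
    intro i x
    cases i
    · have h1 : ((V4 (FreeGroup.of false) : (Matrix (Fin 4) (Fin 4) ℝ)ˣ) : Matrix (Fin 4) (Fin 4) ℝ) = A4 := by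
        simp [V4, mkU]
      have h2 : Q (FreeGroup.of false) = uP := by simp [Q]
      have h3 : lam (FreeGroup.of false) = -uP := by simp [lam]
      rw [h1]
      unfold act
      rw [h2, h3, Units.val_neg, uP_val, uP_inv]
      ext <;> simp [q4, A4, Matrix.mulVec, dotProduct, Fin.sum_univ_four] <;> ring
    · have h1 : ((V4 (FreeGroup.of true) : (Matrix (Fin 4) (Fin 4) ℝ)ˣ) : Matrix (Fin 4) (Fin 4) ℝ) = B4 := by
        simp [V4, mkU]
      have h2 : Q (FreeGroup.of true) = uB := by simp [Q]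
      have h3 : lam (FreeGroup.of true) = 1 := by simp [lam]
      rw [h1]
      unfold act
      rw [h2, h3, Units.val_one, uB_inv]
      ext <;> simp [q4, B4, Matrix.mulVec, dotProduct, Fin.sum_univ_four] <;> ring
  induction w using FreeGroup.induction_on with
  | C1 => intro x; simp [act]
  | of i => exact hof i
  | inv_of i _ =>
    intro x
    have h1 := hof i ((V4 (FreeGroup.of i)⁻¹ : Matrix (Fin 4) (Fin 4) ℝ) *ᵥ x)
    rw [Matrix.mulVec_mulVec, ← Units.val_mul, ← map_mul, mul_inv_cancel, map_one, Units.val_one,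
      Matrix.one_mulVec] at h1
    rw [h1, ← act_mul, inv_mul_cancel, act_one]
  | mul v w hv hw =>
    intro x
    rw [map_mul, Units.val_mul, ← Matrix.mulVec_mulVec, hv, hw, act_mul]

/-- Quaternions commuting with the same nonzero imaginary quaternion commute. -/
theorem comm_of_comm {p q x : Quaternion ℝ} (hx : x ≠ 0) (h0 : x.re = 0) (hp : p * x = x * p)
    (hq : q * x = x * q) : p * q = q * p := by
  have p1 := congrArg (fun q : Quaternion ℝ => q.imI) hp
  have p2 := congrArg (fun q : Quaternion ℝ => q.imJ) hp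
  have p3 := congrArg (fun q : Quaternion ℝ => q.imK) hp
  have q1 := congrArg (fun q : Quaternion ℝ => q.imI) hq
  have q2 := congrArg (fun q : Quaternion ℝ => q.imJ) hq
  have q3 := congrArg (fun q : Quaternion ℝ => q.imK) hq
  simp only [Quaternion.imI_mul, Quaternion.imJ_mul, Quaternion.imK_mul, h0] at p1 p2 p3 q1 q2 q3
  have p1' : p.imJ * x.imK = p.imK * x.imJ := by linarith
  have p2' : p.imK * x.imI = p.imI * x.imK := by linarith
  have p3' : p.imI * x.imJ = p.imJ * x.imI := by linarith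
  have q1' : q.imJ * x.imK = q.imK * x.imJ := by linarith
  have q2' : q.imK * x.imI = q.imI * x.imK := by linarith
  have q3' : q.imI * x.imJ = q.imJ * x.imI := by linarith
  have aux : ∀ a b c d e f u v w : ℝ, u ≠ 0 → b * u = a * v → c * u = a * w → e * u = d * v →
      f * u = d * w → (b * f = c * e ∧ c * d = a * f ∧ a * e = b * d) := by
    intro a b c d e f u v w hu h1 h2 h3 h4
    have h1' : b = a * v / u := by field_simp; exact h1
    have h2' : c = a * w / u := by field_simp; exact h2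
    have h3' : e = d * v / u := by field_simp; exact h3
    have h4' : f = d * w / u := by field_simp; exact h4
    subst h1' h2' h3' h4'
    refine ⟨by ring, by ring, by ring⟩
  have key : (p.imJ * q.imK = p.imK * q.imJ) ∧ (p.imK * q.imI = p.imI * q.imK) ∧
      (p.imI * q.imJ = p.imJ * q.imI) := by
    by_cases hi : x.imI = 0
    · by_cases hj : x.imJ = 0
      · by_cases hk : x.imK = 0
        · exfalso; apply hx; ext <;> simp [h0, hi, hj, hk]
        · obtain ⟨k1, k2, k3⟩ := aux p.imK p.imI p.imJ q.imK q.imI q.imJ x.imK x.imI x.imJ hk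
            p2'.symm p1' q2'.symm q1'
          exact ⟨by linarith, by linarith, by linarith⟩
      · obtain ⟨k1, k2, k3⟩ := aux p.imJ p.imK p.imI q.imJ q.imK q.imI x.imJ x.imK x.imI hj
            p1'.symm p3' q1'.symm q3'
        exact ⟨by linarith, by linarith, by linarith⟩
    · obtain ⟨k1, k2, k3⟩ := aux p.imI p.imJ p.imK q.imI q.imJ q.imK x.imI x.imJ x.imK hi
            p3'.symm p2' q3'.symm q2'
      exact ⟨by linarith, by linarith, by linarith⟩
  obtain ⟨k1, k2, k3⟩ := key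
  ext
  · simp; ring
  · simp; linarith
  · simp; linarith
  · simp; linarith

/-- If conjugation by `q` inverts a nonzero imaginary quaternion then `q` has real part zero. -/
theorem re_eq_zero_of_neg {q x : Quaternion ℝ} (hx : x ≠ 0) (h0 : x.re = 0) (h : q * x = -(x * q)) :
    q.re = 0 := by
  have p1 := congrArg (fun q : Quaternion ℝ => q.imI) h
  have p2 := congrArg (fun q : Quaternion ℝ => q.imJ) h
  have p3 := congrArg (fun q : Quaternion ℝ => q.imK) h
  simp only [Quaternion.imI_mul, Quaternion.imJ_mul, Quaternion.imK_mul, h0, Quaternion.imI_neg,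
    Quaternion.imJ_neg, Quaternion.imK_neg] at p1 p2 p3
  by_contra hr
  apply hx
  have e1 : q.re * x.imI = 0 := by linarith
  have e2 : q.re * x.imJ = 0 := by linarith
  have e3 : q.re * x.imK = 0 := by linarith
  ext
  · simp [h0]
  · simpa using (mul_eq_zero.1 e1).resolve_left hr
  · simpa using (mul_eq_zero.1 e2).resolve_left hr
  · simpa using (mul_eq_zero.1 e3).resolve_left hr

theorem q3_ne {x : Fin 3 → ℝ} (hx : x ≠ 0) : q3 x ≠ 0 := by
  intro h
  exact hx (q3_inj (h.trans q3_zero.symm))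

theorem cj_eq {w : F} {x y : Quaternion ℝ} (h : cj w x = y) :
    ((Q w : (Quaternion ℝ)ˣ) : Quaternion ℝ) * x = y * ((Q w : (Quaternion ℝ)ˣ) : Quaternion ℝ) := by
  rw [← h]; unfold cj; rw [Units.inv_mul_cancel_right]

/-- The sign. -/
def sg : F →* ℤˣ := FreeGroup.lift fun i => if i then 1 else -1

/-- The sign as a real matrix. -/
def sgm (n : ℕ) : ℤˣ →* (Matrix (Fin n) (Fin n) ℝ)ˣ :=
  Units.map ((Int.castRingHom (Matrix (Fin n) (Fin n) ℝ)).toMonoidHom)

theorem sgm_comm (n : ℕ) (s : ℤˣ) (A : (Matrix (Fin n) (Fin n) ℝ)ˣ) : sgm n s * A = A * sgm n s := by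
  rcases Int.units_eq_one_or s with rfl | rfl
  · simp
  · ext i j
    simp [sgm]

/-- The twisted three-dimensional representation. -/
noncomputable def W3 : F →* (Matrix (Fin 3) (Fin 3) ℝ)ˣ where
  toFun w := sgm 3 (sg w) * V3 w
  map_one' := by simp
  map_mul' v w := by
    rw [map_mul, map_mul, map_mul]
    have hc := sgm_comm 3 (sg w) (V3 v)
    calc sgm 3 (sg v) * sgm 3 (sg w) * (V3 v * V3 w)
        = sgm 3 (sg v) * (sgm 3 (sg w) * V3 v) * V3 w := by simp only [mul_assoc]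
      _ = sgm 3 (sg v) * (V3 v * sgm 3 (sg w)) * V3 w := by rw [hc]
      _ = sgm 3 (sg v) * V3 v * (sgm 3 (sg w) * V3 w) := by simp only [mul_assoc]

theorem W3_cases (w : F) : (W3 w : Matrix (Fin 3) (Fin 3) ℝ) = (V3 w : Matrix (Fin 3) (Fin 3) ℝ) ∨
    (W3 w : Matrix (Fin 3) (Fin 3) ℝ) = -(V3 w : Matrix (Fin 3) (Fin 3) ℝ) := by
  have h : (W3 w : Matrix (Fin 3) (Fin 3) ℝ) = (sgm 3 (sg w) : Matrix (Fin 3) (Fin 3) ℝ) * V3 w := rfl
  rw [h]
  rcases Int.units_eq_one_or (sg w) with h1 | h1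
  · left; rw [h1]; simp
  · right; rw [h1]; simp [sgm]

theorem W3_fixed {w : F} {x : Fin 3 → ℝ} (hx : x ≠ 0)
    (h : (W3 w : Matrix (Fin 3) (Fin 3) ℝ) *ᵥ x = x) : cj w (q3 x) = q3 x := by
  rcases W3_cases w with h1 | h1
  · rw [h1] at h
    rw [← V3_q3, h]
  · exfalso
    rw [h1, Matrix.neg_mulVec] at h
    have h2 : (V3 w : Matrix (Fin 3) (Fin 3) ℝ) *ᵥ x = -x := by rw [← h, neg_neg]; exact congrArg _ h
    have h3 := V3_q3 w x
    rw [h2] at h3
    have h4 := cj_eq h3.symm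
    have h5 : q3 (-x) = -q3 x := by ext <;> simp [q3]
    rw [h5, neg_mul] at h4
    exact re_Q_ne w (re_eq_zero_of_neg (q3_ne hx) (by simp [q3]) h4)

theorem comm_of_cj {u v : F} {x : Fin 3 → ℝ} (hx : x ≠ 0) (hu : cj u (q3 x) = q3 x)
    (hv : cj v (q3 x) = q3 x) : u * v = v * u := by
  apply Q_injective
  rw [map_mul, map_mul]
  apply Units.ext
  rw [Units.val_mul, Units.val_mul]
  exact comm_of_comm (q3_ne hx) (by simp [q3]) (cj_eq hu) (cj_eq hv)

theorem V3_LC : LC V3 := by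
  intro u v x hx hu hv
  refine comm_of_cj hx ?_ ?_
  · rw [← V3_q3, hu]
  · rw [← V3_q3, hv]

theorem W3_LC : LC W3 := by
  intro u v x hx hu hv
  exact comm_of_cj hx (W3_fixed hx hu) (W3_fixed hx hv)

theorem V4_LC : LC V4 := by
  intro u v x hx hu hv
  have hx' : q4 x ≠ 0 := fun h => hx (q4_inj (h.trans q4_zero.symm))
  refine lc4 hx' ?_ ?_
  · rw [← V4_q4, hu]
  · rw [← V4_q4, hv]

theorem eq_one_of_cj {w : F} (h : ∀ x : Fin 3 → ℝ, cj w (q3 x) = q3 x) : w = 1 := by
  have h1 := cj_eq (h ![1, 0, 0])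
  have h2 := cj_eq (h ![0, 1, 0])
  have e1 := congrArg (fun q : Quaternion ℝ => q.imJ) h1
  have e2 := congrArg (fun q : Quaternion ℝ => q.imK) h1
  have e3 := congrArg (fun q : Quaternion ℝ => q.imK) h2
  simp [q3] at e1 e2 e3
  exact eq_one_of_real (by linarith) (by linarith) (by linarith)

theorem W3_inj : Function.Injective W3 := by
  rw [injective_iff_map_eq_one]
  intro w hw
  apply eq_one_of_cj
  intro x
  by_cases hx : x = 0
  · rw [hx, q3_zero]; simp [cj]
  · exact W3_fixed hx (by rw [hw]; simp)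

theorem V4_inj : Function.Injective V4 := by
  rw [injective_iff_map_eq_one]
  intro w hw
  have h : ∀ x : Fin 4 → ℝ, ((lam w : (Quaternion ℝ)ˣ) : Quaternion ℝ) * q4 x =
      q4 x * ((Q w : (Quaternion ℝ)ˣ) : Quaternion ℝ) := by
    intro x
    apply act_fixed
    rw [← V4_q4, hw]
    simp
  have h0 := h ![1, 0, 0, 0]
  have h0' : q4 ![1, 0, 0, 0] = 1 := by ext <;> simp [q4]
  rw [h0', mul_one, one_mul] at h0
  have hC := inC_lam w
  rw [h0] at hC
  have h2 := h ![0, 0, 1, 0]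
  rw [h0] at h2
  have e3 := congrArg (fun q : Quaternion ℝ => q.imK) h2
  simp [q4] at e3
  exact eq_one_of_real (by linarith) hC.1 hC.2

theorem W3_orth (w : F) : W3 w ∈ Og (Fin 3) := by
  rw [mem_Og]
  rcases W3_cases w with h | h
  · rw [h]; exact (V3_mem w).1
  · rw [h]; simpa using (V3_mem w).1

/-- Dimension 6. -/
theorem good6 : Good (srep W3 W3) where
  so w := ⟨srep_mem (W3_orth w) (W3_orth w), by
    rw [srep_det]
    rcases W3_cases w with h | h
    · rw [h, (V3_mem w).2, one_mul]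
    · rw [h, Matrix.det_neg, (V3_mem w).2]; norm_num⟩
  inj := by
    intro u v huv
    apply W3_inj
    have h3 := congrArg (fun A : (Matrix (Fin 3 ⊕ Fin 3) (Fin 3 ⊕ Fin 3) ℝ)ˣ =>
      (A : Matrix (Fin 3 ⊕ Fin 3) (Fin 3 ⊕ Fin 3) ℝ)) huv
    simp only [srep_val] at h3
    rw [Matrix.fromBlocks_inj] at h3
    exact Units.ext h3.1
  lc := srep_LC W3_LC W3_LC
  neg := by
    refine ⟨Sum.elim ![1, 0, 0] 0, ?_, ?_⟩
    · intro h3
      have := congrFun h3 (Sum.inl 0)
      simp at this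
    · rw [srep_mulVec]
      have h1 : (W3 (FreeGroup.of false) : Matrix (Fin 3) (Fin 3) ℝ) = -A3 := by
        have h : (W3 (FreeGroup.of false) : Matrix (Fin 3) (Fin 3) ℝ) =
          (sgm 3 (sg (FreeGroup.of false)) : Matrix (Fin 3) (Fin 3) ℝ) * V3 (FreeGroup.of false) := rfl
        rw [h]
        simp [sg, sgm, V3, mkU]
      funext i
      rcases i with i | i
      · rw [h1]
        fin_cases i <;> simp [A3, Matrix.mulVec, dotProduct, Fin.sum_univ_three]
      · simp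

theorem good4 : Good V4 where
  so := V4_mem
  inj := V4_inj
  lc := V4_LC
  neg := by
    refine ⟨![1, 0, 0, 0], ?_, ?_⟩
    · intro h3
      have := congrFun h3 0
      simp at this
    · have h1 : (V4 (FreeGroup.of false) : Matrix (Fin 4) (Fin 4) ℝ) = A4 := by
        simp [V4, mkU]
      rw [h1]
      funext i
      fin_cases i <;> simp [A4, Matrix.mulVec, dotProduct, Fin.sum_univ_four]

/-- All dimensions from 6 on. -/
theorem exists_good : ∀ n : ℕ, 6 ≤ n → ∃ ρ : F →* (Matrix (Fin n) (Fin n) ℝ)ˣ, Good ρ := by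
  have step : ∀ n : ℕ, (∃ ρ : F →* (Matrix (Fin n) (Fin n) ℝ)ˣ, Good ρ) →
      ∃ ρ : F →* (Matrix (Fin (n + 3)) (Fin (n + 3)) ℝ)ˣ, Good ρ := by
    rintro n ⟨ρ, hρ⟩
    exact ⟨_, (hρ.srep V3_LC V3_mem).rrep finSumFinEquiv⟩
  have h6 : ∃ ρ : F →* (Matrix (Fin 6) (Fin 6) ℝ)ˣ, Good ρ := ⟨_, good6.rrep (n := Fin 6) finSumFinEquiv⟩
  have h7 : ∃ ρ : F →* (Matrix (Fin 7) (Fin 7) ℝ)ˣ, Good ρ := step 4 ⟨_, good4⟩
  have h8 : ∃ ρ : F →* (Matrix (Fin 8) (Fin 8) ℝ)ˣ, Good ρ :=
    ⟨_, (good4.srep V4_LC V4_mem).rrep (n := Fin 8) finSumFinEquiv⟩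
  intro n
  induction n using Nat.strong_induction_on with
  | _ n ih =>
    intro hn
    rcases Nat.lt_or_ge n 9 with h | h
    · interval_cases n
      · exact h6
      · exact h7
      · exact h8
    · obtain ⟨m, rfl⟩ : ∃ m, n = m + 3 := ⟨n - 3, by omega⟩
      exact step m (ih m (by omega) (by omega))

end Pool.Agent.Q25.LF
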