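import Pool.Agent.Q25.LF.Real

/-!
# The representations by matrices
-/

set_option autoImplicit false

namespace Pool.Agent.Q25.LF

open Quaternion Matrix

section general
variable {m n : Type} [Fintype m] [DecidableEq m] [Fintype n] [DecidableEq n]

/-- Orthogonal matrices. -/
def Og (m : Type) [Fintype m] [DecidableEq m] : Subgroup (Matrix m m ℝ)ˣ where
  carrier := {A | (A : Matrix m m ℝ) * (A : Matrix m m ℝ)ᵀ = 1}
  one_mem' := by simp
  mul_mem' := by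
    intro A B hA hB
    simp only [Set.mem_ofPred_eq, Units.val_mul, Matrix.transpose_mul] at *
    rw [Matrix.mul_assoc, ← Matrix.mul_assoc (B : Matrix m m ℝ), hB, Matrix.one_mul, hA]
  inv_mem' := by
    intro A hA
    simp only [Set.mem_ofPred_eq] at *
    have h1 : (A : Matrix m m ℝ)ᵀ = ((A⁻¹ : (Matrix m m ℝ)ˣ) : Matrix m m ℝ) := by
      rw [← Units.mul_right_inj A, hA, Units.mul_inv]
    rw [← h1, Matrix.transpose_transpose, h1, Units.inv_mul]

/-- Special orthogonal matrices. -/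
def SOg (m : Type) [Fintype m] [DecidableEq m] : Subgroup (Matrix m m ℝ)ˣ where
  carrier := {A | (A : Matrix m m ℝ) * (A : Matrix m m ℝ)ᵀ = 1 ∧ (A : Matrix m m ℝ).det = 1}
  one_mem' := by simp
  mul_mem' := by
    intro A B hA hB
    exact ⟨(Og m).mul_mem hA.1 hB.1, by
      have h1 := hA.2
      have h2 := hB.2
      rw [Units.val_mul, Matrix.det_mul, h1, h2, one_mul]⟩
  inv_mem' := by
    intro A hA
    refine ⟨(Og m).inv_mem hA.1, ?_⟩
    have h1 : (A : Matrix m m ℝ).det * ((A⁻¹ : (Matrix m m ℝ)ˣ) : Matrix m m ℝ).det = 1 := by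
      rw [← Matrix.det_mul, Units.mul_inv, Matrix.det_one]
    rw [hA.2, one_mul] at h1
    exact h1

theorem mem_Og {A : (Matrix m m ℝ)ˣ} : A ∈ Og m ↔ (A : Matrix m m ℝ) * (A : Matrix m m ℝ)ᵀ = 1 := Iff.rfl
theorem mem_SOg {A : (Matrix m m ℝ)ˣ} : A ∈ SOg m ↔
    (A : Matrix m m ℝ) * (A : Matrix m m ℝ)ᵀ = 1 ∧ (A : Matrix m m ℝ).det = 1 := Iff.rfl

theorem lift_mem {G : Type} [Group G] (S : Subgroup G) (f : Bool → G) (h : ∀ i, f i ∈ S) (w : F) :
    FreeGroup.lift f w ∈ S := by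
  induction w using FreeGroup.induction_on with
  | C1 => simp
  | of i => simpa using h i
  | inv_of i _ => simpa using h i
  | mul v w hv hw => rw [map_mul]; exact mul_mem hv hw

/-- Local commutativity. -/
def LC (ρ : F →* (Matrix m m ℝ)ˣ) : Prop :=
  ∀ (u v : F) (x : m → ℝ), x ≠ 0 → (ρ u : Matrix m m ℝ) *ᵥ x = x → (ρ v : Matrix m m ℝ) *ᵥ x = x →
    u * v = v * u

/-- Block diagonal matrices. -/
def fb : Matrix m m ℝ × Matrix n n ℝ →* Matrix (m ⊕ n) (m ⊕ n) ℝ where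
  toFun p := Matrix.fromBlocks p.1 0 0 p.2
  map_one' := by simp
  map_mul' p q := by simp [Matrix.fromBlocks_multiply]

/-- Sum of representations. -/
def srep (ρ : F →* (Matrix m m ℝ)ˣ) (τ : F →* (Matrix n n ℝ)ˣ) : F →* (Matrix (m ⊕ n) (m ⊕ n) ℝ)ˣ :=
  (Units.map fb).comp (MulEquiv.prodUnits.symm.toMonoidHom.comp (ρ.prod τ))

theorem srep_val (ρ : F →* (Matrix m m ℝ)ˣ) (τ : F →* (Matrix n n ℝ)ˣ) (w : F) :
    (srep ρ τ w : Matrix (m ⊕ n) (m ⊕ n) ℝ) = Matrix.fromBlocks (ρ w) 0 0 (τ w) := rfl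

theorem srep_mulVec (ρ : F →* (Matrix m m ℝ)ˣ) (τ : F →* (Matrix n n ℝ)ˣ) (w : F) (x : m ⊕ n → ℝ) :
    (srep ρ τ w : Matrix (m ⊕ n) (m ⊕ n) ℝ) *ᵥ x =
      Sum.elim ((ρ w : Matrix m m ℝ) *ᵥ (x ∘ Sum.inl)) ((τ w : Matrix n n ℝ) *ᵥ (x ∘ Sum.inr)) := by
  rw [srep_val, Matrix.fromBlocks_mulVec]
  simp

theorem srep_LC {ρ : F →* (Matrix m m ℝ)ˣ} {τ : F →* (Matrix n n ℝ)ˣ} (h1 : LC ρ) (h2 : LC τ) :
    LC (srep ρ τ) := by
  intro u v x hx hu hv
  rw [srep_mulVec] at hu hv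
  have hul := congrArg (fun f => f ∘ Sum.inl) hu
  have hur := congrArg (fun f => f ∘ Sum.inr) hu
  have hvl := congrArg (fun f => f ∘ Sum.inl) hv
  have hvr := congrArg (fun f => f ∘ Sum.inr) hv
  simp only [Sum.elim_comp_inl, Sum.elim_comp_inr] at hul hur hvl hvr
  by_cases h : x ∘ Sum.inl = 0
  · refine h2 u v (x ∘ Sum.inr) ?_ hur hvr
    intro h'
    apply hx
    funext i
    rcases i with i | i
    · exact congrFun h i
    · exact congrFun h' i
  · exact h1 u v (x ∘ Sum.inl) h hul hvl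

theorem srep_mem {ρ : F →* (Matrix m m ℝ)ˣ} {τ : F →* (Matrix n n ℝ)ˣ} {w : F} (h1 : ρ w ∈ Og m)
    (h2 : τ w ∈ Og n) : srep ρ τ w ∈ Og (m ⊕ n) := by
  rw [mem_Og] at *
  rw [srep_val, Matrix.fromBlocks_transpose, Matrix.fromBlocks_multiply]
  simp [h1, h2]

theorem srep_det (ρ : F →* (Matrix m m ℝ)ˣ) (τ : F →* (Matrix n n ℝ)ˣ) (w : F) :
    (srep ρ τ w : Matrix (m ⊕ n) (m ⊕ n) ℝ).det = (ρ w : Matrix m m ℝ).det * (τ w : Matrix n n ℝ).det := by
  rw [srep_val, Matrix.det_fromBlocks_zero₂₁]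

/-- All properties which we need. -/
structure Good (ρ : F →* (Matrix m m ℝ)ˣ) : Prop where
  so : ∀ w, ρ w ∈ SOg m
  inj : Function.Injective ρ
  lc : LC ρ
  neg : ∃ x : m → ℝ, x ≠ 0 ∧ (ρ (FreeGroup.of false) : Matrix m m ℝ) *ᵥ x = -x

theorem Good.srep {ρ : F →* (Matrix m m ℝ)ˣ} {τ : F →* (Matrix n n ℝ)ˣ} (h : Good ρ) (h1 : LC τ)
    (h2 : ∀ w, τ w ∈ SOg n) : Good (srep ρ τ) where
  so w := ⟨srep_mem (h.so w).1 (h2 w).1, by rw [srep_det, (h.so w).2, (h2 w).2, one_mul]⟩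
  inj := by
    intro u v huv
    apply h.inj
    have h3 := congrArg (fun A : (Matrix (m ⊕ n) (m ⊕ n) ℝ)ˣ => (A : Matrix (m ⊕ n) (m ⊕ n) ℝ)) huv
    simp only [srep_val] at h3
    rw [Matrix.fromBlocks_inj] at h3
    exact Units.ext h3.1
  lc := srep_LC h.lc h1
  neg := by
    obtain ⟨x, hx, hx2⟩ := h.neg
    refine ⟨Sum.elim x 0, ?_, ?_⟩
    · intro h3
      apply hx
      have := congrArg (fun f => f ∘ Sum.inl) h3
      simpa using this
    · rw [srep_mulVec]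
      funext i
      rcases i with i | i
      · simp [hx2]
      · simp

/-- Change of the index type. -/
def rrep (e : m ≃ n) (ρ : F →* (Matrix m m ℝ)ˣ) : F →* (Matrix n n ℝ)ˣ :=
  (Units.map (Matrix.reindexAlgEquiv ℝ ℝ e).toAlgHom.toRingHom.toMonoidHom).comp ρ

theorem rrep_val (e : m ≃ n) (ρ : F →* (Matrix m m ℝ)ˣ) (w : F) :
    (rrep e ρ w : Matrix n n ℝ) = (ρ w : Matrix m m ℝ).submatrix e.symm e.symm := rfl

theorem rrep_mulVec (e : m ≃ n) (ρ : F →* (Matrix m m ℝ)ˣ) (w : F) (x : n → ℝ) :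
    (rrep e ρ w : Matrix n n ℝ) *ᵥ x = ((ρ w : Matrix m m ℝ) *ᵥ (x ∘ e)) ∘ e.symm := by
  rw [rrep_val]
  exact Matrix.submatrix_mulVec_equiv _ _ _ _

theorem Good.rrep {ρ : F →* (Matrix m m ℝ)ˣ} (h : Good ρ) (e : m ≃ n) : Good (rrep e ρ) where
  so w := by
    rw [mem_SOg, rrep_val]
    refine ⟨?_, ?_⟩
    · rw [Matrix.transpose_submatrix, Matrix.submatrix_mul_equiv, (h.so w).1]
      simp
    · rw [Matrix.det_submatrix_equiv_self, (h.so w).2]
  inj := by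
    intro u v huv
    apply h.inj
    have h3 := congrArg (fun A : (Matrix n n ℝ)ˣ => ((A : Matrix n n ℝ).submatrix e e)) huv
    simp only [rrep_val, Matrix.submatrix_submatrix, Equiv.symm_comp_self, Matrix.submatrix_id_id] at h3
    exact Units.ext h3
  lc := by
    intro u v x hx hu hv
    rw [rrep_mulVec] at hu hv
    have h1 : ∀ y : m → ℝ, y ∘ e.symm = x → y = x ∘ e := by
      intro y hy
      rw [← hy]
      funext i
      simp
    refine h.lc u v (x ∘ e) ?_ (h1 _ hu) (h1 _ hv)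
    intro h2
    apply hx
    funext i
    have := congrFun h2 (e.symm i)
    simpa using this
  neg := by
    obtain ⟨x, hx, hx2⟩ := h.neg
    refine ⟨x ∘ e.symm, ?_, ?_⟩
    · intro h2
      apply hx
      funext i
      have := congrFun h2 (e i)
      simpa using this
    · rw [rrep_mulVec]
      have : (x ∘ e.symm) ∘ e = x := by funext i; simp
      rw [this, hx2]
      rfl

end general

end Pool.Agent.Q25.LF
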