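import Mathlib

/-!
# Words in two integral quaternions, modulo 5
-/

set_option autoImplicit false

namespace Pool.Agent.Q25.LF

open Quaternion

/-- The free group on two letters: `false` is the letter `a`, `true` the letter `b`. -/
abbrev F := FreeGroup Bool

/-- A quaternion with given components. -/
def qq {R : Type*} (a b c d : R) [CommRing R] : Quaternion R := ⟨a, b, c, d⟩

section
variable {R : Type*} [CommRing R] (a b c d : R)
@[simp] theorem qq_re : (qq a b c d).re = a := rfl
@[simp] theorem qq_i : (qq a b c d).imI = b := rfl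
@[simp] theorem qq_j : (qq a b c d).imJ = c := rfl
@[simp] theorem qq_k : (qq a b c d).imK = d := rfl
end

/-- The integral quaternion of a letter. -/
def lt : Bool × Bool → Quaternion ℤ
  | (false, true) => qq 1 2 0 0
  | (false, false) => qq 1 (-2) 0 0
  | (true, true) => qq (-3) 0 4 0
  | (true, false) => qq (-3) 0 (-4) 0

/-- The exponent of 5 in the denominator of a letter. -/
def kt : Bool × Bool → ℕ
  | (false, true) => 0
  | (false, false) => 1
  | (true, _) => 1

/-- The left factor of a letter. -/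
def la : Bool × Bool → Quaternion ℤ
  | (false, true) => qq (-1) (-2) 0 0
  | (false, false) => qq (-1) 2 0 0
  | (true, _) => 1

/-- Its denominator. -/
def ka : Bool × Bool → ℕ
  | (false, false) => 1
  | (false, true) => 0
  | (true, _) => 0

/-- the number of letters `b`. -/
def nb : Bool × Bool → ℕ
  | (true, _) => 1
  | (false, _) => 0

theorem kt_eq (x : Bool × Bool) : kt x = ka x + nb x := by
  rcases x with ⟨_ | _, _ | _⟩ <;> rfl

/-- The product of the quaternions of the letters. -/
def wt (L : List (Bool × Bool)) : Quaternion ℤ := (L.map lt).prod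

def wa (L : List (Bool × Bool)) : Quaternion ℤ := (L.map la).prod

/-- Reduction modulo 5, as matrices. -/
def Phi (q : Quaternion ℤ) : Matrix (Fin 2) (Fin 2) (ZMod 5) :=
  !![(q.re : ZMod 5) + 2 * q.imI, (q.imJ : ZMod 5) + 2 * q.imK;
    -(q.imJ : ZMod 5) + 2 * q.imK, (q.re : ZMod 5) - 2 * q.imI]

theorem h5 : (5 : ZMod 5) = 0 := by decide

instance : Fact (Nat.Prime 5) := ⟨by norm_num⟩

theorem Phi_mul (p q : Quaternion ℤ) : Phi (p * q) = Phi p * Phi q := by
  ext i j
  fin_cases i <;> fin_cases j <;>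
    simp [Phi, Matrix.mul_apply, Fin.sum_univ_two]
  · linear_combination (-((p.imI : ZMod 5) * q.imI) - (p.imK : ZMod 5) * q.imK) * h5
  · linear_combination (-((p.imI : ZMod 5) * q.imK) + (p.imK : ZMod 5) * q.imI) * h5
  · linear_combination (-((p.imK : ZMod 5) * q.imI) + (p.imI : ZMod 5) * q.imK) * h5
  · linear_combination (-((p.imI : ZMod 5) * q.imI) - (p.imK : ZMod 5) * q.imK) * h5

/-- The column of a letter. -/
def vv : Bool × Bool → Fin 2 → ZMod 5
  | (false, true) => ![0, 1]
  | (false, false) => ![1, 0]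
  | (true, true) => ![1, 3]
  | (true, false) => ![1, 2]

/-- The row of a letter. -/
def ff : Bool × Bool → Fin 2 → ZMod 5
  | (false, true) => ![0, 2]
  | (false, false) => ![2, 0]
  | (true, true) => ![2, 4]
  | (true, false) => ![2, 1]

theorem Phi_lt (x : Bool × Bool) : Phi (lt x) = Matrix.vecMulVec (vv x) (ff x) := by
  rcases x with ⟨_ | _, _ | _⟩ <;> ext i j <;> fin_cases i <;> fin_cases j <;>
    simp [Phi, lt, vv, ff, Matrix.vecMulVec] <;> decide

/-- The scalar between two letters. -/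
def sc (x y : Bool × Bool) : ZMod 5 := ff x 0 * vv y 0 + ff x 1 * vv y 1

theorem sc_ne {x y : Bool × Bool} (h : x.1 = y.1 → x.2 = y.2) : sc x y ≠ 0 := by
  rcases x with ⟨_ | _, _ | _⟩ <;> rcases y with ⟨_ | _, _ | _⟩ <;> simp at h ⊢ <;> decide

/-- A nonempty reduced word is modulo 5 a nonzero multiple of the product of the column of the
first letter and the row of the last letter. -/
theorem Phi_wt : ∀ (L : List (Bool × Bool)) (x : Bool × Bool), FreeGroup.IsReduced (x :: L) →
    ∃ c : ZMod 5, c ≠ 0 ∧ Phi (wt (x :: L)) =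
      c • Matrix.vecMulVec (vv x) (ff ((x :: L).getLast (by simp))) := by
  intro L
  induction L with
  | nil =>
    intro x _
    refine ⟨1, by decide, ?_⟩
    simp [wt, Phi_lt]
  | cons y L ih =>
    intro x h
    rw [FreeGroup.isReduced_cons_cons] at h
    obtain ⟨c, hc, h1⟩ := ih y h.2
    refine ⟨sc x y * c, mul_ne_zero (sc_ne h.1) hc, ?_⟩
    have h2 : wt (x :: y :: L) = lt x * wt (y :: L) := by simp [wt]
    rw [h2, Phi_mul, h1, Phi_lt, Matrix.mul_smul, Matrix.vecMulVec_mul_vecMulVec]
    rw [List.getLast_cons (by simp : y :: L ≠ [])]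
    have h3 : (ff x) ⬝ᵥ (vv y) = sc x y := by simp [sc, dotProduct, Fin.sum_univ_two]
    rw [h3, Matrix.vecMulVec_smul, smul_smul, mul_comm]

/-- A. The real part of a nonempty cyclically reduced word is not divisible by 5. -/
theorem re_ne (L : List (Bool × Bool)) (hL : L ≠ []) (h : FreeGroup.IsCyclicallyReduced L) :
    ¬ (5 : ℤ) ∣ (wt L).re := by
  obtain ⟨x, M, rfl⟩ := List.exists_cons_of_ne_nil hL
  obtain ⟨c, hc, h1⟩ := Phi_wt M x h.1
  intro h2
  have h3 : Matrix.trace (Phi (wt (x :: M))) = 0 := by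
    simp only [Phi, Matrix.trace_fin_two_of]
    have : ((wt (x :: M)).re : ZMod 5) = 0 := by
      exact_mod_cast (ZMod.intCast_zmod_eq_zero_iff_dvd _ 5).2 (by exact_mod_cast h2)
    rw [this]; ring
  rw [h1, Matrix.trace_smul, Matrix.trace_vecMulVec] at h3
  set y := (x :: M).getLast (by simp) with hy
  have h4 : sc y x ≠ 0 := by
    apply sc_ne
    intro h5
    exact h.2 y (by rw [List.getLast?_eq_getLast_of_ne_nil (by simp)]; simp [hy]) x (by simp) h5
  have h6 : vv x ⬝ᵥ ff y = sc y x := by simp [sc, dotProduct, Fin.sum_univ_two, mul_comm]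
  rw [h6, smul_eq_mul] at h3
  exact (mul_ne_zero hc h4) h3

/-- B. A reduced word which begins and ends with `b` or its inverse does not lie in the field of the
first two components. -/
theorem jk_ne (L : List (Bool × Bool)) (x : Bool × Bool) (h : FreeGroup.IsReduced (x :: L))
    (h1 : x.1 = true) (h2 : ((x :: L).getLast (by simp)).1 = true) :
    ¬ ((wt (x :: L)).imJ = 0 ∧ (wt (x :: L)).imK = 0) := by
  obtain ⟨c, hc, h3⟩ := Phi_wt L x h
  rintro ⟨h4, h5⟩
  have h6 : Phi (wt (x :: L)) 0 1 = 0 := by simp [Phi, h4, h5]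
  rw [h3] at h6
  set y := (x :: L).getLast (by simp) with hy
  rcases x with ⟨_ | _, _ | _⟩ <;> rcases y with ⟨_ | _, _ | _⟩ <;>
    simp [Matrix.vecMulVec, vv, ff, hc] at h1 h2 h6 <;> revert h6 <;> decide

/-- C. A nonempty reduced word is not an integer. -/
theorem im_ne (L : List (Bool × Bool)) (x : Bool × Bool) (h : FreeGroup.IsReduced (x :: L)) :
    ¬ ((wt (x :: L)).imI = 0 ∧ (wt (x :: L)).imJ = 0 ∧ (wt (x :: L)).imK = 0) := by
  obtain ⟨c, hc, h3⟩ := Phi_wt L x h
  rintro ⟨h4, h5, h6⟩
  have h7 : Phi (wt (x :: L)) 0 1 = 0 := by simp [Phi, h5, h6]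
  have h8 : Phi (wt (x :: L)) 1 0 = 0 := by simp [Phi, h5, h6]
  have h9 : Phi (wt (x :: L)) 0 0 = Phi (wt (x :: L)) 1 1 := by simp [Phi, h4]
  rw [h3] at h7 h8 h9
  set y := (x :: L).getLast (by simp) with hy
  have hc' : ∀ r s : ZMod 5, c * r = c * s → r = s := fun r s => mul_left_cancel₀ hc
  simp only [Matrix.smul_apply, Matrix.vecMulVec_apply, smul_eq_mul] at h7 h8 h9
  have h7' := (mul_eq_zero.1 h7).resolve_left hc
  have h8' := (mul_eq_zero.1 h8).resolve_left hc
  have h9' := hc' _ _ h9
  clear_value y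
  rcases x with ⟨_ | _, _ | _⟩ <;> rcases y with ⟨_ | _, _ | _⟩ <;>
    simp [vv, ff] at h7' h8' h9' <;> revert h7' h8' h9' <;> decide

end Pool.Agent.Q25.LF
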