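import Pool.Agent.Q25.LF.Quat

/-!
# The free group in the real quaternions
-/

set_option autoImplicit false

namespace Pool.Agent.Q25.LF

open Quaternion

/-- The embedding of the integral quaternions. -/
def cq (q : Quaternion ℤ) : Quaternion ℝ := qq (q.re : ℝ) q.imI q.imJ q.imK

theorem cq_mul (p q : Quaternion ℤ) : cq (p * q) = cq p * cq q := by
  ext <;> simp [cq]

theorem cq_one : cq 1 = 1 := by ext <;> simp [cq]

/-- `1 + 2i` -/
noncomputable def uP : (Quaternion ℝ)ˣ where
  val := qq 1 2 0 0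
  inv := qq (1/5) (-2/5) 0 0
  val_inv := by ext <;> simp <;> norm_num
  inv_val := by ext <;> simp <;> norm_num

/-- `(-3 + 4j)/5` -/
noncomputable def uB : (Quaternion ℝ)ˣ where
  val := qq (-3/5) 0 (4/5) 0
  inv := qq (-3/5) 0 (-4/5) 0
  val_inv := by ext <;> simp <;> norm_num
  inv_val := by ext <;> simp <;> norm_num

theorem uP_val : (uP : Quaternion ℝ) = qq 1 2 0 0 := rfl
theorem uP_inv : ((uP⁻¹ : (Quaternion ℝ)ˣ) : Quaternion ℝ) = qq (1/5) (-2/5) 0 0 := rfl
theorem uB_val : (uB : Quaternion ℝ) = qq (-3/5) 0 (4/5) 0 := rfl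
theorem uB_inv : ((uB⁻¹ : (Quaternion ℝ)ˣ) : Quaternion ℝ) = qq (-3/5) 0 (-4/5) 0 := rfl

/-- The representation by quaternions. -/
noncomputable def Q : F →* (Quaternion ℝ)ˣ := FreeGroup.lift fun i => if i then uB else uP

/-- The left factor. -/
noncomputable def lam : F →* (Quaternion ℝ)ˣ := FreeGroup.lift fun i => if i then 1 else -uP

/-- sum over a list -/
def sm (f : Bool × Bool → ℕ) (L : List (Bool × Bool)) : ℕ := (L.map f).sum

theorem mk_cons (x : Bool × Bool) (L : List (Bool × Bool)) :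
    (FreeGroup.mk (x :: L) : F) = FreeGroup.mk [x] * FreeGroup.mk L := by
  rw [FreeGroup.mul_mk]; rfl

theorem mk_single (x : Bool × Bool) :
    (FreeGroup.mk [x] : F) = if x.2 then FreeGroup.of x.1 else (FreeGroup.of x.1)⁻¹ := by
  rcases x with ⟨i, _ | _⟩
  · simp [FreeGroup.of]; rfl
  · simp [FreeGroup.of]

/-- Real scalars. -/
def rs (r : ℝ) : Quaternion ℝ := qq r 0 0 0

theorem rs_mul (r s : ℝ) : rs (r * s) = rs r * rs s := by ext <;> simp [rs]
theorem rs_comm (r : ℝ) (q : Quaternion ℝ) : rs r * q = q * rs r := by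
  ext <;> simp [rs] <;> ring

theorem Q_single (x : Bool × Bool) :
    ((Q (FreeGroup.mk [x]) : (Quaternion ℝ)ˣ) : Quaternion ℝ) * rs (5 ^ kt x) = cq (lt x) := by
  rw [mk_single]
  rcases x with ⟨_ | _, _ | _⟩ <;> simp [Q, kt, cq, -Units.val_inv_eq_inv_val] <;>
    simp only [uP_val, uP_inv, uB_val, uB_inv] <;> ext <;>
    simp [rs, lt]

theorem lam_single (x : Bool × Bool) :
    ((lam (FreeGroup.mk [x]) : (Quaternion ℝ)ˣ) : Quaternion ℝ) * rs (5 ^ ka x) = cq (la x) := by
  rw [mk_single]
  rcases x with ⟨_ | _, _ | _⟩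
  · simp only [lam, ka, cq, la, Bool.false_eq_true, if_false, map_inv, FreeGroup.lift_apply_of,
      pow_one, inv_neg, Units.val_neg, uP_inv]
    ext <;> simp [rs]
  · simp only [lam, ka, cq, la, if_true, if_false, FreeGroup.lift_apply_of,
      pow_zero, Units.val_neg, uP_val, Bool.false_eq_true]
    ext <;> simp [rs]
  · simp [lam, ka, la, cq_one]; ext <;> simp [rs]
  · simp [lam, ka, la, cq_one]; ext <;> simp [rs]

theorem Q_mk (L : List (Bool × Bool)) :
    ((Q (FreeGroup.mk L) : (Quaternion ℝ)ˣ) : Quaternion ℝ) * rs (5 ^ sm kt L) = cq (wt L) := by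
  induction L with
  | nil =>
    have : (FreeGroup.mk [] : F) = 1 := rfl
    rw [this, map_one]
    simp only [sm, wt, List.map_nil, List.sum_nil, List.prod_nil, pow_zero, cq_one, Units.val_one]
    ext <;> simp [rs]
  | cons x L ih =>
    have h1 : wt (x :: L) = lt x * wt L := by simp [wt]
    have h2 : sm kt (x :: L) = kt x + sm kt L := by simp [sm]
    rw [h1, cq_mul, ← ih, ← Q_single, mk_cons, map_mul, Units.val_mul, h2, pow_add, rs_mul]
    have h3 := rs_comm (5 ^ kt x) ((Q (FreeGroup.mk L) : (Quaternion ℝ)ˣ) : Quaternion ℝ)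
    rw [mul_assoc, ← mul_assoc ((Q (FreeGroup.mk L) : (Quaternion ℝ)ˣ) : Quaternion ℝ), ← h3]
    simp only [mul_assoc]

theorem lam_mk (L : List (Bool × Bool)) :
    ((lam (FreeGroup.mk L) : (Quaternion ℝ)ˣ) : Quaternion ℝ) * rs (5 ^ sm ka L) = cq (wa L) := by
  induction L with
  | nil =>
    have : (FreeGroup.mk [] : F) = 1 := rfl
    rw [this, map_one]
    simp only [sm, wa, List.map_nil, List.sum_nil, List.prod_nil, pow_zero, cq_one, Units.val_one]
    ext <;> simp [rs]
  | cons x L ih =>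
    have h1 : wa (x :: L) = la x * wa L := by simp [wa]
    have h2 : sm ka (x :: L) = ka x + sm ka L := by simp [sm]
    rw [h1, cq_mul, ← ih, ← lam_single, mk_cons, map_mul, Units.val_mul, h2, pow_add, rs_mul]
    have h3 := rs_comm (5 ^ ka x) ((lam (FreeGroup.mk L) : (Quaternion ℝ)ˣ) : Quaternion ℝ)
    rw [mul_assoc, ← mul_assoc ((lam (FreeGroup.mk L) : (Quaternion ℝ)ˣ) : Quaternion ℝ), ← h3]
    simp only [mul_assoc]

theorem sm_kt (L : List (Bool × Bool)) : sm kt L = sm ka L + sm nb L := by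
  induction L with
  | nil => rfl
  | cons x L ih =>
    have h : ∀ f, sm f (x :: L) = f x + sm f L := fun f => by simp [sm]
    rw [h, h, h, ih, kt_eq]; ring

/-- The real part is invariant under conjugation. -/
theorem re_conj (g : (Quaternion ℝ)ˣ) (q : Quaternion ℝ) :
    ((g : Quaternion ℝ) * q * ((g⁻¹ : (Quaternion ℝ)ˣ) : Quaternion ℝ)).re = q.re := by
  have h : ∀ p q : Quaternion ℝ, (p * q).re = (q * p).re := by
    intro p q; simp; ring
  rw [h, ← mul_assoc, Units.inv_mul, one_mul]

theorem re_Q (L : List (Bool × Bool)) :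
    ((Q (FreeGroup.mk L) : (Quaternion ℝ)ˣ) : Quaternion ℝ).re * 5 ^ sm kt L = ((wt L).re : ℝ) := by
  have := congrArg (fun q : Quaternion ℝ => q.re) (Q_mk L)
  simpa [rs, cq] using this

theorem re_lam (L : List (Bool × Bool)) :
    ((lam (FreeGroup.mk L) : (Quaternion ℝ)ˣ) : Quaternion ℝ).re * 5 ^ sm ka L = ((wa L).re : ℝ) := by
  have := congrArg (fun q : Quaternion ℝ => q.re) (lam_mk L)
  simpa [rs, cq] using this

/-- Every element is conjugate to a cyclically reduced word. -/
theorem exists_cyc (w : F) : ∃ (g : F) (L : List (Bool × Bool)), FreeGroup.IsCyclicallyReduced L ∧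
    w = g * FreeGroup.mk L * g⁻¹ := by
  refine ⟨FreeGroup.mk (FreeGroup.reduceCyclically.conjugator w.toWord), FreeGroup.reduceCyclically w.toWord,
    FreeGroup.reduceCyclically.isCyclicallyReduced FreeGroup.isReduced_toWord, ?_⟩
  have h := FreeGroup.reduceCyclically.conj_conjugator_reduceCyclically w.toWord
  rw [FreeGroup.inv_mk, FreeGroup.mul_mk, FreeGroup.mul_mk, h, FreeGroup.mk_toWord]

/-- The real part of each `Q w` is nonzero. -/
theorem re_Q_ne (w : F) : ((Q w : (Quaternion ℝ)ˣ) : Quaternion ℝ).re ≠ 0 := by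
  obtain ⟨g, L, hL, rfl⟩ := exists_cyc w
  rw [map_mul, map_mul, map_inv, Units.val_mul, Units.val_mul, re_conj]
  intro h
  rcases eq_or_ne L [] with rfl | hne
  · have : (FreeGroup.mk [] : F) = 1 := rfl
    rw [this] at h
    simp at h
  · have h1 := re_Q L
    rw [h, zero_mul] at h1
    apply re_ne L hne hL
    have : (wt L).re = 0 := by exact_mod_cast h1.symm
    rw [this]; exact dvd_zero _

/-- A nontrivial element is not mapped to a real number. -/
theorem eq_one_of_real {w : F} (h1 : ((Q w : (Quaternion ℝ)ˣ) : Quaternion ℝ).imI = 0)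
    (h2 : ((Q w : (Quaternion ℝ)ˣ) : Quaternion ℝ).imJ = 0)
    (h3 : ((Q w : (Quaternion ℝ)ˣ) : Quaternion ℝ).imK = 0) : w = 1 := by
  have hw := Q_mk w.toWord
  rw [FreeGroup.mk_toWord] at hw
  rcases hL : w.toWord with _ | ⟨x, L⟩
  · exact FreeGroup.toWord_eq_nil_iff.1 hL
  · exfalso
    have hr : FreeGroup.IsReduced w.toWord := FreeGroup.isReduced_toWord
    rw [hL] at hw hr
    apply im_ne L x hr
    have e1 := congrArg (fun q : Quaternion ℝ => q.imI) hw
    have e2 := congrArg (fun q : Quaternion ℝ => q.imJ) hw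
    have e3 := congrArg (fun q : Quaternion ℝ => q.imK) hw
    simp [rs, cq, h1, h2, h3] at e1 e2 e3
    exact ⟨by exact_mod_cast e1.symm, by exact_mod_cast e2.symm, by exact_mod_cast e3.symm⟩

theorem Q_injective : Function.Injective Q := by
  rw [injective_iff_map_eq_one]
  intro w hw
  apply eq_one_of_real <;> simp [hw]

/-- The quaternion lies in the field of the first two components. -/
def inC (q : Quaternion ℝ) : Prop := q.imJ = 0 ∧ q.imK = 0

theorem inC_mul {p q : Quaternion ℝ} (hp : inC p) (hq : inC q) : inC (p * q) := by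
  obtain ⟨h1, h2⟩ := hp
  obtain ⟨h3, h4⟩ := hq
  constructor <;> simp [h1, h2, h3, h4]

theorem inC_comm {p q : Quaternion ℝ} (hp : inC p) (hq : inC q) : p * q = q * p := by
  obtain ⟨h1, h2⟩ := hp
  obtain ⟨h3, h4⟩ := hq
  ext <;> simp [h1, h2, h3, h4] <;> ring

theorem inC_inv {u : (Quaternion ℝ)ˣ} (h : inC (u : Quaternion ℝ)) :
    inC ((u⁻¹ : (Quaternion ℝ)ˣ) : Quaternion ℝ) := by
  obtain ⟨h1, h2⟩ := h
  constructor <;> simp [Quaternion.inv_def, h1, h2]

theorem inC_Q_single {x : Bool × Bool} (hx : x.1 = false) :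
    inC ((Q (FreeGroup.mk [x]) : (Quaternion ℝ)ˣ) : Quaternion ℝ) := by
  rw [mk_single]
  rcases x with ⟨_ | _, _ | _⟩
  · simp only [Q, Bool.false_eq_true, if_false, map_inv, FreeGroup.lift_apply_of, uP_inv]
    constructor <;> simp
  · simp only [Q, Bool.false_eq_true, if_false, if_true, FreeGroup.lift_apply_of, uP_val]
    constructor <;> simp
  · simp at hx
  · simp at hx

theorem mk_single_mem {x : Bool × Bool} (hx : x.1 = false) :
    (FreeGroup.mk [x] : F) ∈ Subgroup.zpowers (FreeGroup.of false : F) := by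
  rw [mk_single]
  rcases x with ⟨_ | _, _ | _⟩
  · simp
  · simp
  · simp at hx
  · simp at hx

theorem inC_lam (w : F) : inC ((lam w : (Quaternion ℝ)ˣ) : Quaternion ℝ) := by
  induction w using FreeGroup.induction_on with
  | C1 => constructor <;> simp
  | of i =>
    cases i
    · simp only [lam, Bool.false_eq_true, if_false, FreeGroup.lift_apply_of, Units.val_neg, uP_val]
      constructor <;> simp
    · constructor <;> simp [lam]
  | inv_of i hi =>
    rw [map_inv]; exact inC_inv hi
  | mul v w hv hw =>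
    rw [map_mul, Units.val_mul]; exact inC_mul hv hw

theorem mem_zpowers_list : ∀ (n : ℕ) (L : List (Bool × Bool)), L.length ≤ n →
    FreeGroup.IsReduced L → inC ((Q (FreeGroup.mk L) : (Quaternion ℝ)ˣ) : Quaternion ℝ) →
    (FreeGroup.mk L : F) ∈ Subgroup.zpowers (FreeGroup.of false : F) := by
  intro n
  induction n with
  | zero =>
    intro L hL _ _
    have : L = [] := List.length_eq_zero_iff.1 (Nat.le_zero.1 hL)
    rw [this]
    exact one_mem _
  | succ n ih =>
    intro L hL hr hC
    rcases L with _ | ⟨x, M⟩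
    · exact one_mem _
    · rcases hx : x.1 with _ | _
      · -- the first letter is a power of a
        rw [mk_cons]
        refine mul_mem (mk_single_mem hx) (ih M (by simpa using hL) ?_ ?_)
        · rcases M with _ | ⟨z, M⟩
          · exact FreeGroup.IsReduced.nil
          · exact (FreeGroup.isReduced_cons_cons.1 hr).2
        · have : Q (FreeGroup.mk M) = (Q (FreeGroup.mk [x]))⁻¹ * Q (FreeGroup.mk (x :: M)) := by
            rw [mk_cons x M, map_mul]; simp
          rw [this, Units.val_mul]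
          exact inC_mul (inC_inv (inC_Q_single hx)) hC
      · rcases hy : ((x :: M).getLast (by simp)).1 with _ | _
        · -- the last letter is a power of a
          set y := (x :: M).getLast (by simp) with hydef
          have hsplit : (x :: M).dropLast ++ [y] = x :: M := List.dropLast_append_getLast (by simp)
          have hmk : (FreeGroup.mk (x :: M) : F) = FreeGroup.mk (x :: M).dropLast * FreeGroup.mk [y] := by
            rw [FreeGroup.mul_mk, hsplit]
          rw [hmk]
          refine mul_mem (ih _ (by simpa using hL) ?_ ?_) (mk_single_mem hy)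
          · have hr' := hr
            rw [← hsplit] at hr'
            exact (List.isChain_append.1 hr').1
          · have : Q (FreeGroup.mk (x :: M).dropLast) = Q (FreeGroup.mk (x :: M)) * (Q (FreeGroup.mk [y]))⁻¹ := by
              rw [hmk, map_mul]; simp
            rw [this, Units.val_mul]
            exact inC_mul hC (inC_inv (inC_Q_single hy))
        · exfalso
          apply jk_ne M x hr hx hy
          have hw := Q_mk (x :: M)
          have e2 := congrArg (fun q : Quaternion ℝ => q.imJ) hw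
          have e3 := congrArg (fun q : Quaternion ℝ => q.imK) hw
          obtain ⟨h2, h3⟩ := hC
          simp [rs, cq, h2, h3] at e2 e3
          exact ⟨by exact_mod_cast e2.symm, by exact_mod_cast e3.symm⟩

/-- B'. The elements with values in the field of the first two components are the powers of `a`. -/
theorem mem_zpowers_of_C {w : F} (h : inC ((Q w : (Quaternion ℝ)ˣ) : Quaternion ℝ)) :
    w ∈ Subgroup.zpowers (FreeGroup.of false : F) := by
  have := mem_zpowers_list _ w.toWord le_rfl FreeGroup.isReduced_toWord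
  rw [FreeGroup.mk_toWord] at this
  exact this h

/-- A reduced word without letters `b` is a power of `a`. -/
theorem mem_zpowers_of_nb : ∀ (L : List (Bool × Bool)), sm nb L = 0 →
    (FreeGroup.mk L : F) ∈ Subgroup.zpowers (FreeGroup.of false : F) := by
  intro L
  induction L with
  | nil => intro _; exact one_mem _
  | cons x M ih =>
    intro h
    have h1 : nb x + sm nb M = 0 := by simpa [sm] using h
    rw [mk_cons]
    refine mul_mem (mk_single_mem ?_) (ih (by omega))
    rcases x with ⟨_ | _, _ | _⟩ <;> simp [nb] at h1 ⊢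

/-- Elements with a fixed vector in the four-dimensional representation. -/
theorem conj_of_fixed {w : F} {x : Quaternion ℝ} (hx : x ≠ 0)
    (h : ((lam w : (Quaternion ℝ)ˣ) : Quaternion ℝ) * x = x * ((Q w : (Quaternion ℝ)ˣ) : Quaternion ℝ)) :
    ∃ g : F, ∃ m : ℤ, w = g * (FreeGroup.of false) ^ m * g⁻¹ := by
  obtain ⟨g, L, hL, rfl⟩ := exists_cyc w
  rcases eq_or_ne L [] with rfl | hne
  · refine ⟨1, 0, ?_⟩
    have : (FreeGroup.mk [] : F) = 1 := rfl
    rw [this]; simp
  have hre : ((lam (FreeGroup.mk L) : (Quaternion ℝ)ˣ) : Quaternion ℝ).re =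
      ((Q (FreeGroup.mk L) : (Quaternion ℝ)ˣ) : Quaternion ℝ).re := by
    have h1 : ((lam (g * FreeGroup.mk L * g⁻¹) : (Quaternion ℝ)ˣ) : Quaternion ℝ).re =
      ((Q (g * FreeGroup.mk L * g⁻¹) : (Quaternion ℝ)ˣ) : Quaternion ℝ).re := by
      let X : (Quaternion ℝ)ˣ := Units.mk0 x hx
      have h2 : ((lam (g * FreeGroup.mk L * g⁻¹) : (Quaternion ℝ)ˣ) : Quaternion ℝ) =
          (X : Quaternion ℝ) * ((Q (g * FreeGroup.mk L * g⁻¹) : (Quaternion ℝ)ˣ) : Quaternion ℝ) *
            ((X⁻¹ : (Quaternion ℝ)ˣ) : Quaternion ℝ) := by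
        have h3 : (X : Quaternion ℝ) = x := rfl
        rw [h3, ← h, ← h3, Units.mul_inv_cancel_right]
      rw [h2, re_conj]
    rwa [map_mul, map_mul, map_mul, map_mul, map_inv, map_inv, Units.val_mul, Units.val_mul,
      Units.val_mul, Units.val_mul, re_conj, re_conj] at h1
  have h4 := re_Q L
  have h5 := re_lam L
  rw [sm_kt, pow_add, ← mul_assoc, ← hre, h5] at h4
  have h6 : (wa L).re * 5 ^ sm nb L = (wt L).re := by exact_mod_cast h4
  have h7 : sm nb L = 0 := by
    by_contra h8
    apply re_ne L hne hL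
    rw [← h6]
    exact Dvd.dvd.mul_left (dvd_pow_self 5 h8) _
  obtain ⟨m, hm⟩ := mem_zpowers_of_nb L h7
  exact ⟨g, m, by simp only at hm; rw [hm]⟩

/-- The four-dimensional action. -/
noncomputable def act (w : F) (x : Quaternion ℝ) : Quaternion ℝ :=
  ((lam w : (Quaternion ℝ)ˣ) : Quaternion ℝ) * x * (((Q w)⁻¹ : (Quaternion ℝ)ˣ) : Quaternion ℝ)

theorem act_mul (v w : F) (x : Quaternion ℝ) : act (v * w) x = act v (act w x) := by
  simp only [act, map_mul, Units.val_mul, mul_inv_rev, mul_assoc]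

theorem act_one (x : Quaternion ℝ) : act 1 x = x := by simp [act]

theorem act_ne {w : F} {x : Quaternion ℝ} (hx : x ≠ 0) : act w x ≠ 0 := by
  unfold act
  exact mul_ne_zero (mul_ne_zero (Units.ne_zero _) hx) (Units.ne_zero _)

theorem act_fixed {w : F} {x : Quaternion ℝ} (h : act w x = x) :
    ((lam w : (Quaternion ℝ)ˣ) : Quaternion ℝ) * x = x * ((Q w : (Quaternion ℝ)ˣ) : Quaternion ℝ) := by
  conv_rhs => rw [← h]
  unfold act
  rw [Units.inv_mul_cancel_right]

theorem of_zpow_ne {m : ℤ} (hm : m ≠ 0) : (FreeGroup.of false : F) ^ m ≠ 1 := by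
  intro h
  have h1 := congrArg (fun g : F => (FreeGroup.lift (fun _ : Bool => Multiplicative.ofAdd (1 : ℤ)) :
    F →* Multiplicative ℤ) g) h
  simp only [map_zpow, FreeGroup.lift_apply_of, map_one] at h1
  rw [← ofAdd_zsmul] at h1
  apply hm
  have h2 := congrArg Multiplicative.toAdd h1
  simpa using h2

theorem inC_of_fixed_zpow {m : ℤ} (hm : m ≠ 0) {y : Quaternion ℝ} (hy : y ≠ 0)
    (h : act ((FreeGroup.of false) ^ m) y = y) : inC y := by
  have h1 := act_fixed h
  have hQ : (Q ((FreeGroup.of false) ^ m) : (Quaternion ℝ)ˣ) = uP ^ m := by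
    rw [map_zpow]; simp [Q]
  have hC : inC ((Q ((FreeGroup.of false) ^ m) : (Quaternion ℝ)ˣ) : Quaternion ℝ) := by
    rw [hQ]
    have h3 := inC_lam ((FreeGroup.of false : F) ^ m)
    have h4 : lam ((FreeGroup.of false) ^ m) = (-uP) ^ m := by rw [map_zpow]; simp [lam]
    rw [h4] at h3
    rcases Int.even_or_odd m with he | ho
    · rwa [he.neg_zpow] at h3
    · rw [ho.neg_zpow] at h3
      obtain ⟨h5, h6⟩ := h3
      exact ⟨by simpa using h5, by simpa using h6⟩
  have hre := re_Q_ne ((FreeGroup.of false : F) ^ m)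
  have him : ((Q ((FreeGroup.of false) ^ m) : (Quaternion ℝ)ˣ) : Quaternion ℝ).imI ≠ 0 := by
    intro h2
    exact of_zpow_ne hm (eq_one_of_real h2 hC.1 hC.2)
  have hl : ((lam ((FreeGroup.of false) ^ m) : (Quaternion ℝ)ˣ) : Quaternion ℝ) =
      ((Q ((FreeGroup.of false) ^ m) : (Quaternion ℝ)ˣ) : Quaternion ℝ) ∨
      ((lam ((FreeGroup.of false) ^ m) : (Quaternion ℝ)ˣ) : Quaternion ℝ) =
      -((Q ((FreeGroup.of false) ^ m) : (Quaternion ℝ)ˣ) : Quaternion ℝ) := by
    have h4 : lam ((FreeGroup.of false) ^ m) = (-uP) ^ m := by rw [map_zpow]; simp [lam]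
    rw [h4, hQ]
    rcases Int.even_or_odd m with he | ho
    · left; rw [he.neg_zpow]
    · right; rw [ho.neg_zpow, Units.val_neg]
  set q : Quaternion ℝ := ((Q ((FreeGroup.of false) ^ m) : (Quaternion ℝ)ˣ) : Quaternion ℝ) with hq
  obtain ⟨hj, hk⟩ := hC
  rcases hl with hl | hl
  · rw [hl] at h1
    have e1 := congrArg (fun p : Quaternion ℝ => p.imJ) h1
    have e2 := congrArg (fun p : Quaternion ℝ => p.imK) h1
    simp only [Quaternion.imJ_mul, Quaternion.imK_mul, hj, hk] at e1 e2
    constructor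
    · have : q.imI * y.imJ = 0 := by linarith
      exact (mul_eq_zero.1 this).resolve_left him
    · have : q.imI * y.imK = 0 := by linarith
      exact (mul_eq_zero.1 this).resolve_left him
  · rw [hl] at h1
    have e1 := congrArg (fun p : Quaternion ℝ => p.imJ) h1
    have e2 := congrArg (fun p : Quaternion ℝ => p.imK) h1
    simp only [Quaternion.imJ_mul, Quaternion.imK_mul, hj, hk, Quaternion.imJ_neg, Quaternion.imK_neg,
      Quaternion.imI_neg, Quaternion.re_neg] at e1 e2
    constructor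
    · have : q.re * y.imJ = 0 := by linarith
      exact (mul_eq_zero.1 this).resolve_left hre
    · have : q.re * y.imK = 0 := by linarith
      exact (mul_eq_zero.1 this).resolve_left hre

/-- The four-dimensional representation is locally commutative. -/
theorem lc4 {u v : F} {x : Quaternion ℝ} (hx : x ≠ 0) (hu : act u x = x) (hv : act v x = x) :
    u * v = v * u := by
  obtain ⟨g, m, rfl⟩ := conj_of_fixed hx (act_fixed hu)
  obtain ⟨h, l, rfl⟩ := conj_of_fixed hx (act_fixed hv)
  rcases eq_or_ne m 0 with rfl | hm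
  · simp
  rcases eq_or_ne l 0 with rfl | hl
  · simp
  set a : F := FreeGroup.of false with ha
  have hy : act (a ^ m) (act g⁻¹ x) = act g⁻¹ x := by
    have := congrArg (act g⁻¹) hu
    rw [← act_mul] at this
    rw [← act_mul, ← this]
    congr 1; group
  have hz : act (a ^ l) (act h⁻¹ x) = act h⁻¹ x := by
    have := congrArg (act h⁻¹) hv
    rw [← act_mul] at this
    rw [← act_mul, ← this]
    congr 1; group
  have hyC := inC_of_fixed_zpow hm (act_ne hx) hy
  have hzC := inC_of_fixed_zpow hl (act_ne hx) hz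
  have hk : act (h⁻¹ * g) (act g⁻¹ x) = act h⁻¹ x := by
    rw [← act_mul]; congr 1; group
  set y := act g⁻¹ x with hydef
  set z := act h⁻¹ x with hzdef
  have hz0 : z ≠ 0 := act_ne hx
  have h1 : ((lam (h⁻¹ * g) : (Quaternion ℝ)ˣ) : Quaternion ℝ) * y =
      z * ((Q (h⁻¹ * g) : (Quaternion ℝ)ˣ) : Quaternion ℝ) := by
    rw [← hk]
    unfold act
    rw [Units.inv_mul_cancel_right]
  have h2 : ((Q (h⁻¹ * g) : (Quaternion ℝ)ˣ) : Quaternion ℝ) =
      (((Units.mk0 z hz0)⁻¹ : (Quaternion ℝ)ˣ) : Quaternion ℝ) *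
        (((lam (h⁻¹ * g) : (Quaternion ℝ)ˣ) : Quaternion ℝ) * y) := by
    have h3 : (((Units.mk0 z hz0)⁻¹ : (Quaternion ℝ)ˣ) : Quaternion ℝ) * z = 1 :=
      Units.inv_mul (Units.mk0 z hz0)
    rw [h1, ← mul_assoc, h3, one_mul]
  have h4 : inC ((Q (h⁻¹ * g) : (Quaternion ℝ)ˣ) : Quaternion ℝ) := by
    rw [h2]
    exact inC_mul (inC_inv hzC) (inC_mul (inC_lam _) hyC)
  obtain ⟨t, ht⟩ := mem_zpowers_of_C h4
  have hg : g = h * a ^ t := by
    have : a ^ t = h⁻¹ * g := ht
    rw [this]; group
  have h5 : g * a ^ m * g⁻¹ = h * a ^ m * h⁻¹ := by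
    rw [hg]; group
  rw [h5]
  group

end Pool.Agent.Q25.LF
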